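import Mathlib

set_option autoImplicit false

namespace Pool.Agent.Results.MP_fdbc88_co.Diam24

open Finset

/-- `c` is a neighbour-locating proper colouring of `G` with colours in `Fin k`. -/
def IsNL {V : Type} (G : SimpleGraph V) (k : ℕ) (c : V → Fin k) : Prop :=
  (∀ u v, G.Adj u v → c u ≠ c v) ∧
  ∀ u v, u ≠ v → c u = c v → {i | ∃ w, G.Adj u w ∧ c w = i} ≠ {i | ∃ w, G.Adj v w ∧ c w = i}

/-- The neighbour-locating chromatic number. -/
noncomputable def chiNL {V : Type} (G : SimpleGraph V) : ℕ := sInf {k | ∃ c, IsNL G k c}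

def adjB (u v : Fin 26) : Bool :=
  u.val + 1 == v.val || v.val + 1 == u.val || (u.val == 1 && v.val == 3) ||
  (u.val == 3 && v.val == 1) || (u.val == 2 && v.val == 4) || (u.val == 4 && v.val == 2)

def G : SimpleGraph (Fin 26) where
  Adj u v := adjB u v = true
  symm := ⟨by decide +kernel⟩
  loopless := ⟨by decide +kernel⟩

instance : DecidableRel G.Adj := fun u v => inferInstanceAs (Decidable (adjB u v = true))

def col : Fin 26 → Fin 4 :=
  ![0, 1, 2, 3, 0, 1, 0, 2, 0, 2, 1, 0, 3, 0, 2, 3, 0, 3, 1, 2, 1, 2, 3, 2, 3, 1]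

theorem col_NL : IsNL G 4 col := by
  refine ⟨by decide +kernel, ?_⟩
  have : ∀ u v : Fin 26, u ≠ v → col u = col v →
      ¬ ∀ i, (∃ w, G.Adj u w ∧ col w = i) ↔ (∃ w, G.Adj v w ∧ col w = i) := by decide +kernel
  intro u v h1 h2 h3
  exact this u v h1 h2 fun i => Set.ext_iff.1 h3 i

theorem up (d : ℕ) : ∀ u v : Fin 26, v.val = u.val + d → G.edist u v ≤ d := by
  induction d with
  | zero =>
    intro u v h
    have : u = v := Fin.ext (by omega)
    subst this; simp
  | succ d ih =>
    intro u v h
    let w : Fin 26 := ⟨u.val + d, by have := v.2; omega⟩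
    have h1 := ih u w rfl
    have h2 : G.Adj w v := by
      change adjB w v = true
      simp [adjB, w, h, Nat.add_assoc]
    have h3 := SimpleGraph.edist_eq_one_iff_adj.2 h2
    calc G.edist u v ≤ G.edist u w + G.edist w v := SimpleGraph.edist_triangle
      _ ≤ d + 1 := by rw [h3]; gcongr
      _ = ((d + 1 : ℕ) : ℕ∞) := by push_cast; rfl

theorem up' (u v : Fin 26) (h : u.val ≤ v.val) : G.edist u v ≤ 24 := by
  by_cases e : u.val = 0 ∧ v.val = 25
  · have e1 : u = 0 := Fin.ext e.1
    have e2 : v = 25 := Fin.ext e.2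
    subst e1; subst e2
    have a1 := up 2 0 2 rfl
    have a2 : G.edist 2 4 = 1 := SimpleGraph.edist_eq_one_iff_adj.2 (by decide)
    have a3 := up 21 4 25 rfl
    calc G.edist 0 25 ≤ G.edist 0 2 + G.edist 2 25 := SimpleGraph.edist_triangle
      _ ≤ G.edist 0 2 + (G.edist 2 4 + G.edist 4 25) := by
          gcongr; exact SimpleGraph.edist_triangle
      _ ≤ (2 : ℕ) + (1 + (21 : ℕ)) := by rw [a2]; gcongr
      _ = 24 := by norm_num
  · have := up (v.val - u.val) u v (by omega)
    refine this.trans ?_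
    have h2 : v.val - u.val ≤ 24 := by have := v.2; omega
    exact_mod_cast h2

def pot (v : Fin 26) : ℕ := if v.val ≤ 2 then v.val else v.val - 1

theorem low {u v : Fin 26} (w : G.Walk u v) : pot v ≤ pot u + w.length := by
  have : ∀ a b : Fin 26, G.Adj a b → pot b ≤ pot a + 1 := by decide +kernel
  induction w with
  | nil => simp
  | cons h w ih =>
    have := this _ _ h
    simp only [SimpleGraph.Walk.length_cons]
    omega

theorem ediam_eq : G.ediam = 24 := by
  apply le_antisymm
  · rw [SimpleGraph.ediam_le_iff]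
    intro u v
    rcases le_total u.val v.val with h | h
    · exact up' u v h
    · rw [SimpleGraph.edist_comm]; exact up' v u h
  · refine le_trans ?_ (SimpleGraph.edist_le_ediam (u := 0) (v := 25))
    rw [SimpleGraph.edist_eq_sInf]
    apply le_sInf
    rintro _ ⟨w, rfl⟩
    have := low w
    have h1 : pot 25 = 24 := by decide
    have h0 : pot 0 = 0 := by decide
    rw [h1, h0] at this
    have h2 : 24 ≤ w.length := by omega
    beta_reduce
    exact_mod_cast h2

theorem path_no4 (c : Fin 25 → Fin 4) : ¬ IsNL (SimpleGraph.pathGraph 25) 4 c := by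
  classical
  rintro ⟨h1, h2⟩
  let S : Fin 25 → Finset (Fin 4) := fun v =>
    univ.filter (fun i => ∃ w, (SimpleGraph.pathGraph 25).Adj v w ∧ c w = i)
  let T : Finset (Fin 4 × Finset (Fin 4)) :=
    univ.filter (fun p => p.1 ∉ p.2 ∧ 1 ≤ p.2.card ∧ p.2.card ≤ 2)
  have hT : T.card = 24 := by decide +kernel
  have : (univ : Finset (Fin 25)).card ≤ T.card := by
    apply card_le_card_of_injOn (fun v => (c v, S v))
    · intro v _
      simp only [T, coe_filter, mem_univ, true_and, Set.mem_ofPred_eq]
      refine ⟨?_, ?_, ?_⟩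
      · simp only [S, mem_filter, mem_univ, true_and]
        rintro ⟨w, hw, e⟩
        exact h1 v w hw e.symm
      · rw [Nat.succ_le_iff, card_pos]
        by_cases hv : v.val = 0
        · refine ⟨c 1, mem_filter.2 ⟨mem_univ _, 1, ?_, rfl⟩⟩
          rw [SimpleGraph.pathGraph_adj]; left; rw [hv]; rfl
        · refine ⟨c ⟨v.val - 1, by omega⟩, mem_filter.2 ⟨mem_univ _, _, ?_, rfl⟩⟩
          rw [SimpleGraph.pathGraph_adj]; right; simp only; omega
      · refine le_trans (card_le_card (t := {c (v - 1), c (v + 1)}) ?_) card_le_two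
        intro i hi
        obtain ⟨w, hw, rfl⟩ := (mem_filter.1 hi).2
        rw [SimpleGraph.pathGraph_adj] at hw
        have key : ∀ v w : Fin 25, (v.val + 1 = w.val ∨ w.val + 1 = v.val) →
            w = v - 1 ∨ w = v + 1 := by decide +kernel
        rcases key v w hw with e | e <;> simp [← e]
    · intro u _ v _ e
      simp only [Prod.mk.injEq] at e
      by_contra hne
      apply h2 u v hne e.1
      ext i
      have := Finset.ext_iff.1 e.2 i
      simpa [S] using this
  rw [hT] at this
  simp at this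

theorem result : ∃ G : SimpleGraph (Fin 26), G.Connected ∧ G.ediam = 24 ∧
    chiNL G < chiNL (SimpleGraph.pathGraph (24 + 1)) := by
  refine ⟨G, SimpleGraph.connected_of_ediam_ne_top (by rw [ediam_eq]; simp), ediam_eq, ?_⟩
  have h1 : chiNL G ≤ 4 := Nat.sInf_le ⟨col, col_NL⟩
  refine lt_of_le_of_lt h1 ?_
  by_contra hc
  push Not at hc
  have hne : {k | ∃ c, IsNL (SimpleGraph.pathGraph 25) k c}.Nonempty :=
    ⟨25, id, fun u v h => h.ne, fun u v h1 h2 => absurd h2 h1⟩
  obtain ⟨c, c1, c2⟩ := Nat.sInf_mem hne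
  apply path_no4 (fun v => Fin.castLE hc (c v))
  refine ⟨fun u v h e => c1 u v h (Fin.castLE_injective _ e), fun u v h e e2 => ?_⟩
  apply c2 u v h (Fin.castLE_injective _ e)
  ext i
  have := Set.ext_iff.1 e2 (Fin.castLE hc i)
  simp only [Set.mem_ofPred_eq, Fin.castLE_inj] at this
  exact this

end Pool.Agent.Results.MP_fdbc88_co.Diam24
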